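import Pool.Agent.H608.Ge.Euler
import Pool.Agent.H608.Ge.Primes
import Pool.Agent.H608.Me.ExpPol
import Mathlib

/-!
# Measures of transcendence for `ζ(9)` without very few Euler factors

For a set `E` of primes let `ζ_E(s)` be the sum of `1 / n ^ s` over the positive integers without prime factors in
`E`, that is, the Riemann zeta function without its Euler factors at the primes of `E`. For every `ε > 0` there are sets
`E` with at most `ε log log K` elements up to `K` such that `ζ_E(9)` is irrational, and even transcendental, with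
polynomial measures: for all `d` there is `c` with `|P (ζ_E(9))| ≥ H ^ (-c)` for all nonzero integer polynomials of degree
at most `d` and height at most `H` (so `ζ_E(9)` is neither a Liouville number nor a `U`-number). The same is true for
polynomials in all `ζ_E(s)`, and in all `log ζ_E(s)`.
-/

set_option autoImplicit false

namespace Pool.Agent.Results.MP_db0fbf_nt.EulerFactorsMeasure

open Finset Filter Topology Metric
open Pool.Agent.H608.Ge Pool.Agent.H608.Me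

/-- `A` has at least `H ^ δ` elements in `[H, 2 H)`, for some `δ > 0` and all large `H` -/
def PolyDense (A : Set ℕ) : Prop :=
  ∃ δ : ℝ, 0 < δ ∧ ∀ᶠ H : ℕ in atTop, (H : ℝ) ^ δ ≤ (({k : ℕ | k ∈ A ∧ H ≤ k ∧ k < 2 * H}.ncard : ℕ) : ℝ)

open Classical in
/-- the sum of `1 / n ^ s` over the positive integers without prime factors in `E` -/
noncomputable def zetaE (E : Set ℕ) (s : ℕ) : ℝ := ∑' n : ℕ, if ∃ p ∈ E, p ∣ n then 0 else 1 / (n : ℝ) ^ s

lemma zetaE_empty {s : ℕ} (hs : 2 ≤ s) : ((zetaE ∅ s : ℝ) : ℂ) = riemannZeta s := by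
  rw [zeta_nat_eq_tsum_of_gt_one (by omega)]
  unfold zetaE
  rw [Complex.ofReal_tsum]
  apply tsum_congr
  intro n
  simp

open Classical in
lemma zetaE_prod {E : Set ℕ} (hE : ∀ p ∈ E, p.Prime) {s : ℕ} (hs : 2 ≤ s) :
    HasProd (fun p : Nat.Primes => if (p : ℕ) ∈ E then 1 else (1 - 1 / ((p : ℕ) : ℝ) ^ s)⁻¹) (zetaE E s) := by
  have hs0 : s ≠ 0 := by omega
  have h1 : Summable fun n => ‖fE E hE s hs0 n‖ := by
    refine Summable.of_nonneg_of_le (fun _ => norm_nonneg _) (fun n => ?_)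
      (Real.summable_one_div_nat_pow.2 (by omega : 1 < s))
    show ‖if ∃ p ∈ E, p ∣ n then 0 else 1 / (n : ℝ) ^ s‖ ≤ _
    split_ifs
    · rw [norm_zero]
      positivity
    · rw [Real.norm_of_nonneg (by positivity)]
  have h2 := EulerProduct.eulerProduct_completely_multiplicative_hasProd h1
  have h3 : (fun p : Nat.Primes => if (p : ℕ) ∈ E then 1 else (1 - 1 / ((p : ℕ) : ℝ) ^ s)⁻¹) =
      fun p : Nat.Primes => (1 - fE E hE s hs0 p)⁻¹ := funext fun p => by
    have h7 : (∃ q ∈ E, q ∣ (p : ℕ)) ↔ (p : ℕ) ∈ E := by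
      constructor
      · rintro ⟨q, hq, h⟩
        rwa [← (Nat.prime_dvd_prime_iff_eq (hE q hq) p.2).1 h]
      · exact fun h => ⟨p, h, dvd_rfl⟩
    have h8 : fE E hE s hs0 (p : ℕ) = if (p : ℕ) ∈ E then 0 else 1 / ((p : ℕ) : ℝ) ^ s := by
      show (if ∃ q ∈ E, q ∣ (p : ℕ) then 0 else 1 / ((p : ℕ) : ℝ) ^ s) = _
      by_cases h9 : (p : ℕ) ∈ E
      · rw [if_pos (h7.2 h9), if_pos h9]
      · rw [if_neg fun h => h9 (h7.1 h), if_neg h9]
    rw [h8]
    split_ifs
    · rw [sub_zero, inv_one]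
    · rfl
  rw [h3]
  exact h2

lemma primes_dense : PolyDense {p : ℕ | p.Prime} := by
  refine ⟨1 / 2, by norm_num, ?_⟩
  have h1 : Tendsto (fun H : ℕ => (Real.log H) ^ (3 / 5 : ℝ)) atTop atTop :=
    (tendsto_rpow_atTop (by norm_num)).comp (Real.tendsto_log_atTop.comp tendsto_natCast_atTop_atTop)
  filter_upwards [primes_rich, h1.eventually_ge_atTop 2, eventually_ge_atTop 3] with H h2 h3 h4
  refine le_trans ?_ h2
  have hH : (3 : ℝ) ≤ H := by exact_mod_cast h4
  have hH0 : (0 : ℝ) < H := by linarith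
  have hL : 0 < Real.log H := Real.log_pos (by linarith)
  rw [Real.rpow_def_of_pos hH0]
  have h5 : (H : ℝ) * Real.exp (-(Real.log H) ^ (2 / 5 : ℝ)) = Real.exp (Real.log H - (Real.log H) ^ (2 / 5 : ℝ)) := by
    rw [sub_eq_add_neg, Real.exp_add, Real.exp_log hH0]
  rw [h5]
  apply Real.exp_le_exp.2
  have h6 : Real.log H = (Real.log H) ^ (3 / 5 : ℝ) * (Real.log H) ^ (2 / 5 : ℝ) := by
    rw [← Real.rpow_add hL]
    norm_num
  have h7 : 0 < (Real.log H) ^ (2 / 5 : ℝ) := Real.rpow_pos_of_pos hL _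
  have h8 : 2 * (Real.log H) ^ (2 / 5 : ℝ) ≤ Real.log H := by
    nth_rewrite 2 [h6]
    exact mul_le_mul_of_nonneg_right h3 h7.le
  linarith

/-- polynomials in one of the numbers -/
lemma one_var {t d : ℕ} (i₀ : Fin t) {y : Fin t → ℝ} {H : ℕ} {κ : ℝ}
    (h : ∀ P : MvPolynomial (Fin t) ℤ, P ≠ 0 → P.totalDegree ≤ d → (∀ α, |P.coeff α| ≤ H) →
      (H : ℝ) ^ (-κ) ≤ |MvPolynomial.aeval y P|) (P : Polynomial ℤ) (hP : P ≠ 0) (hd : P.natDegree ≤ d)
    (hH : ∀ i, |P.coeff i| ≤ H) : (H : ℝ) ^ (-κ) ≤ |Polynomial.aeval (y i₀) P| := by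
  classical
  obtain ⟨Q, hQ⟩ : ∃ Q : MvPolynomial (Fin t) ℤ, Q = ∑ i ∈ range (d + 1), MvPolynomial.monomial (Finsupp.single i₀ i) (P.coeff i) :=
    ⟨_, rfl⟩
  have hcoef : ∀ α, Q.coeff α = ∑ i ∈ range (d + 1), if Finsupp.single i₀ i = α then P.coeff i else 0 := by
    intro α
    rw [hQ, MvPolynomial.coeff_sum]
    refine sum_congr rfl fun i _ => ?_
    rw [MvPolynomial.coeff_monomial]
  have hcoef1 : ∀ i, i ≤ d → Q.coeff (Finsupp.single i₀ i) = P.coeff i := by
    intro i hi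
    rw [hcoef, sum_eq_single i]
    · rw [if_pos rfl]
    · intro j _ hji
      rw [if_neg]
      intro h1
      exact hji (Finsupp.single_injective i₀ h1)
    · intro h1
      exact absurd (mem_range.2 (by omega)) h1
  have hval : MvPolynomial.aeval y Q = Polynomial.aeval (y i₀) P := by
    rw [hQ, map_sum, Polynomial.aeval_eq_sum_range' (by omega : P.natDegree < d + 1)]
    refine sum_congr rfl fun i _ => ?_
    rw [MvPolynomial.aeval_monomial, Finsupp.prod_single_index (by simp), Algebra.smul_def]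
  rw [← hval]
  apply h
  · intro h0
    apply hP
    ext i
    rw [Polynomial.coeff_zero]
    by_cases hi : i ≤ d
    · rw [← hcoef1 i hi, h0, MvPolynomial.coeff_zero]
    · exact Polynomial.coeff_eq_zero_of_natDegree_lt (by omega)
  · rw [hQ]
    refine (MvPolynomial.totalDegree_finsetSum _ _).trans ?_
    apply Finset.sup_le
    intro i hi
    refine (MvPolynomial.totalDegree_monomial_le _ _).trans ?_
    rw [Finsupp.sum_single_index rfl]
    show i ≤ d
    have := mem_range.1 hi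
    omega
  · intro α
    by_cases hα : ∃ i, i ≤ d ∧ Finsupp.single i₀ i = α
    · obtain ⟨i, hi, rfl⟩ := hα
      rw [hcoef1 i hi]
      exact hH i
    · rw [hcoef, sum_eq_zero]
      · rw [abs_zero]
        positivity
      · intro i hi
        rw [if_neg]
        intro h1
        exact hα ⟨i, by have := mem_range.1 hi; omega, h1⟩

open Classical in
theorem result :
    -- `ζ_E` is Riemann's zeta function without the Euler factors at the primes of `E`
    (∀ s : ℕ, 2 ≤ s → ((zetaE ∅ s : ℝ) : ℂ) = riemannZeta s) ∧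
    (∀ E : Set ℕ, (∀ p ∈ E, p.Prime) → ∀ s : ℕ, 2 ≤ s →
      HasProd (fun p : Nat.Primes => if (p : ℕ) ∈ E then 1 else (1 - 1 / ((p : ℕ) : ℝ) ^ s)⁻¹) (zetaE E s)) ∧
    -- the set of all primes is an admissible set `A`
    PolyDense {p : ℕ | p.Prime} ∧
    ∀ A : Set ℕ, (∀ p ∈ A, p.Prime) → PolyDense A → ∀ ε : ℝ, 0 < ε → ∀ M : ℕ,
      ∃ E : Set ℕ, E ⊆ A ∧ (∀ p ∈ E, M ≤ p) ∧
        (∀ K : ℕ, 16 ≤ K → (({p : ℕ | p ∈ E ∧ p ≤ K}.ncard : ℕ) : ℝ) ≤ ε * Real.log (Real.log K)) ∧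
        -- `ζ_E(9)`
        Irrational (zetaE E 9) ∧ Transcendental ℚ (zetaE E 9) ∧
        (∀ d : ℕ, ∃ c : ℝ, 0 < c ∧ ∀ H : ℕ, 2 ≤ H → ∀ P : Polynomial ℤ, P ≠ 0 → P.natDegree ≤ d →
          (∀ i, |P.coeff i| ≤ H) → (H : ℝ) ^ (-c) ≤ |Polynomial.aeval (zetaE E 9) P|) ∧
        -- all values
        (∀ t d : ℕ, ∃ c : ℝ, 0 < c ∧ ∀ H : ℕ, 2 ≤ H → ∀ P : MvPolynomial (Fin t) ℤ, P ≠ 0 → P.totalDegree ≤ d →
          (∀ α, |P.coeff α| ≤ H) →
          (H : ℝ) ^ (-c) ≤ |MvPolynomial.aeval (fun i : Fin t => zetaE E ((i : ℕ) + 2)) P|) ∧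
        -- all logarithms of the values
        ∀ t d : ℕ, ∃ c : ℝ, 0 < c ∧ ∀ H : ℕ, 2 ≤ H → ∀ P : MvPolynomial (Fin t) ℤ, P ≠ 0 → P.totalDegree ≤ d →
          (∀ α, |P.coeff α| ≤ H) →
          (H : ℝ) ^ (-c) ≤ |MvPolynomial.aeval (fun i : Fin t => Real.log (zetaE E ((i : ℕ) + 2))) P| := by
  refine ⟨fun s hs => zetaE_empty hs, fun E hE s hs => zetaE_prod hE hs, primes_dense,
    fun A hAp hA ε hε M => ?_⟩
  obtain ⟨E, z, _, h2, h3, h4, h5, h6⟩ := expMea (fun j => serZ (j + 2) (Nat.le_add_left 2 _)) linInd_Z hA hε M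
  have hEp : ∀ p ∈ E, p.Prime := fun p hp => hAp p (h2 p hp).1
  have hz : ∀ j, Real.exp (z j) = zetaE E (j + 2) := by
    intro j
    have h1 := tendsto_nhds_unique (h4 j) (limit_Z hEp (Nat.le_add_left 2 j))
    rw [h1]
    exact (euler_exp hEp (Nat.le_add_left 2 j)).symm
  have hz' : ∀ j, z j = Real.log (zetaE E (j + 2)) := by
    intro j
    rw [← hz, Real.log_exp]
  simp only [hz] at h6
  simp only [hz'] at h5
  have h9 : ∀ d : ℕ, ∃ c : ℝ, 0 < c ∧ ∀ H : ℕ, 2 ≤ H → ∀ P : Polynomial ℤ, P ≠ 0 → P.natDegree ≤ d →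
      (∀ i, |P.coeff i| ≤ H) → (H : ℝ) ^ (-c) ≤ |Polynomial.aeval (zetaE E 9) P| := by
    intro d
    obtain ⟨c, hc, h7⟩ := h6 8 d
    exact ⟨c, hc, fun H hH P hP hd hPH =>
      one_var (y := fun i : Fin 8 => zetaE E ((i : ℕ) + 2)) (⟨7, by norm_num⟩ : Fin 8) (h7 H hH) P hP hd hPH⟩
  have htr : Transcendental ℚ (zetaE E 9) := by
    intro halg
    rw [← IsFractionRing.isAlgebraic_iff ℤ ℚ ℝ] at halg
    obtain ⟨P, hP, hP0⟩ := halg
    obtain ⟨c, _, h7⟩ := h9 P.natDegree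
    obtain ⟨H, hH⟩ : ∃ H : ℕ, H = 2 + ∑ i ∈ range (P.natDegree + 1), (P.coeff i).natAbs := ⟨_, rfl⟩
    have h8 := h7 H (by omega) P hP le_rfl (fun i => by
      by_cases hi : i ≤ P.natDegree
      · have h8 : (P.coeff i).natAbs ≤ ∑ i ∈ range (P.natDegree + 1), (P.coeff i).natAbs :=
          single_le_sum (f := fun i => (P.coeff i).natAbs) (fun _ _ => Nat.zero_le _) (mem_range.2 (by omega))
        rw [← Int.natCast_natAbs]
        exact_mod_cast (by omega : (P.coeff i).natAbs ≤ H)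
      · rw [Polynomial.coeff_eq_zero_of_natDegree_lt (by omega), abs_zero]
        positivity)
    rw [hP0, abs_zero] at h8
    have h10 : 0 < (H : ℝ) ^ (-c) := Real.rpow_pos_of_pos (by exact_mod_cast (by omega : 0 < H)) _
    linarith
  exact ⟨E, fun p hp => (h2 p hp).1, fun p hp => (h2 p hp).2.1, h3, htr.irrational, htr, h9, h6, h5⟩

end Pool.Agent.Results.MP_db0fbf_nt.EulerFactorsMeasure
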